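import Pool.Agent.X324.CF.Defs

/-!
# Nef and semiample sheaves on quotients `(A × F) / G`: definitions
-/

set_option autoImplicit false

namespace Pool.Agent.K4H22.NS

open Pool.Agent.X324.CF

section Fibre

variable {ρ : ℕ} {R : Type*} [CommRing R] [Algebra ℂ R] (𝒜 : Cl ρ → Submodule ℂ R)

/-- `F` is a normal projective variety with free class group `Cl(F) = ℤ^ρ`, all Weil divisors being
`ℚ`-Cartier, and `u` is the class of an ample divisor. Here `R = ⨁ H⁰(F, O_F(β))` need not be finitely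
generated. The conditions say: `F` is not empty, the only functions on `F` are the constants, and
every class becomes effective and semiample when a multiple of `u` is added. -/
structure IsProjective (u : Cl ρ) : Prop where
  point : ∃ p : R →ₐ[ℂ] ℂ, Semistable 𝒜 u p
  const : ∀ r ∈ 𝒜 0, ∃ c : ℂ, r = algebraMap ℂ R c
  sections : ∀ β : Cl ρ, ∃ m : ℕ, (∃ r ∈ 𝒜 (β + m • u), r ≠ 0) ∧ ∃ r ∈ 𝒜 (m • u), r ≠ 0
  ample : ∀ β : Cl ρ, ∃ m : ℕ, SemiampleF 𝒜 u (β + m • u)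

/-- The class `k β` has no base points on `F`. -/
def FreeF (u β : Cl ρ) (k : ℕ) : Prop :=
  ∀ p : R →ₐ[ℂ] ℂ, Semistable 𝒜 u p → ∃ r ∈ 𝒜 (k • β), p r ≠ 0

/-- The class `β` is nef on `F`: there is a class `α` such that all classes `m β + α` are semiample.
(If `β` is nef this holds for every ample class `α`. Conversely, it implies
`m (β · C) + α · C ≥ 0` for all `m`, and so `β · C ≥ 0`, for every curve `C`.) -/
def NefF (u β : Cl ρ) : Prop := ∃ α : Cl ρ, ∀ m : ℕ, SemiampleF 𝒜 u (m • β + α)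

end Fibre

section Total

variable {V R : Type*} [NormedAddCommGroup V] [NormedSpace ℂ V] [CommRing R] [Algebra ℂ R]
  {ρ : ℕ} {𝒜 : Cl ρ → Submodule ℂ R} {Γ : Grp V R}

/-- The reflexive tensor power `𝓛^{[M]}` is generated by its global sections: at each point `(v, p)` of
`V × F` some section of it does not vanish. -/
def FreePow (𝓛 : Sheaf 𝒜 Γ) (u : Cl ρ) (M : ℕ) : Prop :=
  ∀ (v : V) (p : R →ₐ[ℂ] ℂ), Semistable 𝒜 u p → ∃ f, 𝓛.IsPowSection M f ∧ p (f v) ≠ 0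

/-- The tensor power `𝓛^{[m]}`. -/
def power (𝓛 : Sheaf 𝒜 Γ) (m : ℕ) : Sheaf 𝒜 Γ where
  deg := m • 𝓛.deg
  e := fun γ v => 𝓛.e γ v ^ m
  holo := fun γ => (𝓛.holo γ).pow m
  ne_zero := fun γ v => pow_ne_zero m (𝓛.ne_zero γ v)
  mul := fun γ δ v => by rw [𝓛.mul, mul_pow]
  inv := fun γ hγ σ hσ => by rw [map_nsmul, 𝓛.inv γ hγ σ hσ]
  triv := fun γ χ h1 h2 v => by
    rw [ofAdd_nsmul, map_pow, ← mul_pow, 𝓛.triv γ χ h1 h2 v, one_pow]

/-- The tensor product of two sheaves. -/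
def prod (𝓛 𝓜 : Sheaf 𝒜 Γ) : Sheaf 𝒜 Γ where
  deg := 𝓛.deg + 𝓜.deg
  e := fun γ v => 𝓛.e γ v * 𝓜.e γ v
  holo := fun γ => (𝓛.holo γ).mul (𝓜.holo γ)
  ne_zero := fun γ v => mul_ne_zero (𝓛.ne_zero γ v) (𝓜.ne_zero γ v)
  mul := fun γ δ v => by rw [𝓛.mul, 𝓜.mul]; ring
  inv := fun γ hγ σ hσ => by rw [map_add, 𝓛.inv γ hγ σ hσ, 𝓜.inv γ hγ σ hσ]
  triv := fun γ χ h1 h2 v => by
    rw [ofAdd_add, map_mul, mul_mul_mul_comm, 𝓛.triv γ χ h1 h2 v, 𝓜.triv γ χ h1 h2 v, one_mul]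

/-- The number of the linear parts of the elements of `Γ`. -/
noncomputable def linNum (Γ : Grp V R) : ℕ := Nat.card {A : V ≃ₗ[ℂ] V // ∃ γ ∈ base Γ, γ.linear = A}

/-- The number of the automorphisms of `F` which occur in `Γ`. -/
noncomputable def galNum (Γ : Grp V R) : ℕ := Nat.card {φ : R ≃ₐ[ℂ] R // ∃ γ ∈ Γ, γ.2 = φ}

/-- The sheaf `𝓛` is nef: there is a sheaf `𝓐` such that all sheaves `𝓛^{[m]} ⊗ 𝓐` are semiample. (If
`X` is projective and `𝓛` is nef this holds for every ample `𝓐`. Conversely, it implies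
`m (𝓛 · C) + 𝓐 · C ≥ 0` for all `m`, and so `𝓛 · C ≥ 0`, for every curve `C`.) -/
def IsNef (𝓛 : Sheaf 𝒜 Γ) (u : Cl ρ) : Prop :=
  ∃ (𝓐 : Sheaf 𝒜 Γ) (H : V → V → ℂ), 𝓐.IsChern H ∧
    ∀ m : ℕ, (prod (power 𝓛 m) 𝓐).IsSemiample u

end Total

end Pool.Agent.K4H22.NS
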