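import Pool.Agent.K4H22.NS.Defs
import Pool.Agent.X324.CF.Cls
import Pool.Agent.X324.CF.PolyNef
import Pool.Agent.R800.UB.Log
import Pool.Agent.R893.TQ.Semi

/-!
# Nef and semiample sheaves on quotients `(A × F) / G`: proofs
-/

set_option autoImplicit false

namespace Pool.Agent.K4H22.NS

open Pool.Agent.W594.SYZ2 Pool.Agent.W594.SYZ2.TQ Pool.Agent.TH735.AQ Pool.Agent.X324.CF
open Pool.Agent.R893.TQ (BaseFree exists_power exists_bad)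
open Pool.Agent.R800.UA (gl3 gl3_pos power_uni numerical_uni)
open Pool.Agent.R800.UB (ample_eff)

variable {V R : Type*} [NormedAddCommGroup V] [NormedSpace ℂ V] [CommRing R] [Algebra ℂ R]
  {ρ : ℕ} {𝒜 : Cl ρ → Submodule ℂ R} {u : Cl ρ} {Γ : Grp V R}

theorem expo_eq : linNum Γ * galNum Γ = expo Γ := rfl

theorem isNef_iff {𝓛 : Sheaf 𝒜 Γ} : IsNef 𝓛 u ↔ ∃ (𝓐 : Sheaf 𝒜 Γ) (H : V → V → ℂ), 𝓐.IsChern H ∧
    ∀ m : ℕ, ((𝓛.pow m).tensor 𝓐).IsSemiample u := Iff.rfl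

section Fibre

theorem semiample_of_nsmul {β : Cl ρ} {k : ℕ} (hk : 0 < k) (h : SemiampleF 𝒜 u (k • β)) :
    SemiampleF 𝒜 u β := by
  obtain ⟨m, hm, h1⟩ := h
  refine ⟨m * k, Nat.mul_pos hm hk, fun p hp => ?_⟩
  obtain ⟨r, hr, hr0⟩ := h1 p hp
  refine ⟨r, ?_, hr0⟩
  rwa [mul_smul]

theorem semiample_iff {β : Cl ρ} : SemiampleF 𝒜 u β ↔ ∃ k : ℕ, 0 < k ∧ FreeF 𝒜 u β k := Iff.rfl

variable [GradedAlgebra 𝒜]

theorem IsProjective.base (hF : IsProjective 𝒜 u) : Base 𝒜 (fun i : Fin 0 => i.elim0) where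
  gens := fun H hH => by
    rw [eq_top_iff]
    intro β _
    obtain ⟨m, h1, h2⟩ := hF.sections β
    have h3 := H.sub_mem (hH _ h1) (hH _ h2)
    rwa [add_sub_cancel_right] at h3
  pointed := fun c _ => funext fun i => i.elim0

omit [GradedAlgebra 𝒜] in
theorem IsProjective.semiample_u (hF : IsProjective 𝒜 u) : SemiampleF 𝒜 u u := by
  obtain ⟨m, hm⟩ := hF.ample u
  have h1 : u + m • u = (m + 1) • u := by rw [succ_nsmul, add_comm]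
  rw [h1] at hm
  exact semiample_of_nsmul (Nat.succ_pos m) hm

theorem nefF_of_semiample {β : Cl ρ} (h : SemiampleF 𝒜 u β) : NefF 𝒜 u β :=
  ⟨0, fun m => by rw [add_zero]; exact h.nsmul m⟩

omit [GradedAlgebra 𝒜] in
theorem NefF.nsmul {β : Cl ρ} (h : NefF 𝒜 u β) (k : ℕ) : NefF 𝒜 u (k • β) := by
  obtain ⟨α, h1⟩ := h
  refine ⟨α, fun m => ?_⟩
  rw [smul_smul]
  exact h1 (m * k)

end Fibre

theorem IsQuotient.gal_pos (hQ : IsQuotient 𝒜 u Γ) : 0 < Nat.card (gal Γ) := by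
  have := hQ.fin_gal
  exact Nat.card_pos

variable [GradedAlgebra 𝒜]

/-- The product of sections of the two factors. -/
theorem free_of (hQ : IsQuotient 𝒜 u Γ) (𝓛 : Sheaf 𝒜 Γ) {j k : ℕ}
    (hj : BaseFree ((𝓛.toLB hQ).pow j)) (hk : FreeF 𝒜 u 𝓛.deg k) :
    FreePow 𝓛 u (expo Γ * j * k) := by
  classical
  have hfin := hQ.fin_gal
  have : Fintype (gal Γ) := Fintype.ofFinite _
  intro v p hp
  obtain ⟨s, hs, hsv⟩ := hj v
  obtain ⟨r, hr, hr0⟩ := exists_nonvanish (K := gal Γ) (𝒜 := 𝒜) (β := k • 𝓛.deg) (p := p)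
    (fun φ => hk _ (semistable_comp hQ hp φ.2))
  set N := Nat.card (Lin (base Γ)) * j with hN
  have hinv : Inv 𝒜 Γ (k • 𝓛.deg) := Inv.nsmul 𝓛.inv k
  have hnm := nrm_mem (𝒜 := 𝒜) (K := gal Γ) (fun φ hφ r hr => gal_mem hQ hinv hφ hr) hr
  have hdeg : N • (Fintype.card (gal Γ) • (k • 𝓛.deg)) = (expo Γ * j * k) • 𝓛.deg := by
    rw [smul_smul, smul_smul, ← Nat.card_eq_fintype_card, hN, expo]
    congr 1
    ring
  refine ⟨fun w => s w ^ k • nrm (gal Γ) r ^ N, ⟨fun w => ?_, fun ℓ => ?_, fun γ w => ?_⟩, ?_⟩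
  · have h1 := SetLike.pow_mem_graded N hnm
    rw [hdeg] at h1
    exact (𝒜 _).smul_mem _ h1
  · have h1 : (fun w => ℓ (s w ^ k • nrm (gal Γ) r ^ N)) = fun w => s w ^ k * ℓ (nrm (gal Γ) r ^ N) := by
      funext w
      rw [map_smul, smul_eq_mul]
    rw [h1]
    exact (hs.holo.pow k).mul_const _
  · have h1 := hs.eq ⟨γ.1.1, mem_base γ.2⟩ w
    change s (γ.1.1 w) = (𝓛.toLB hQ).e ⟨γ.1.1, mem_base γ.2⟩ w ^ j * s w at h1
    rw [Sheaf.toLB_e] at h1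
    change s (γ.1.1 w) ^ k • nrm (gal Γ) r ^ N
      = 𝓛.e γ w ^ (expo Γ * j * k) • γ.1.2 (s w ^ k • nrm (gal Γ) r ^ N)
    rw [h1, map_smul, map_pow, nrm_fix (mem_gal γ.2), smul_smul, mul_pow, ← pow_mul, ← pow_mul]
    ring_nf
  · rw [map_smul, map_pow, smul_eq_mul]
    exact mul_ne_zero (pow_ne_zero _ hsv) (pow_ne_zero _ hr0)

theorem FreePow.isSemiample {𝓛 : Sheaf 𝒜 Γ} {M : ℕ} (hM : 0 < M) (h : FreePow 𝓛 u M) :
    𝓛.IsSemiample u := ⟨M, hM, h⟩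

omit [GradedAlgebra 𝒜] in
theorem deg_of_semiample {𝓛 : Sheaf 𝒜 Γ} (h : 𝓛.IsSemiample u) : SemiampleF 𝒜 u 𝓛.deg := by
  obtain ⟨m, hm, h1⟩ := h
  refine ⟨m, hm, fun p hp => ?_⟩
  obtain ⟨f, hf, h2⟩ := h1 0 p hp
  exact ⟨f 0, hf.mem 0, h2⟩

variable [IsDomain R] [FiniteDimensional ℂ V] {H : V → V → ℂ}

theorem form_of_semiample (hQ : IsQuotient 𝒜 u Γ) (hp : ∃ p : R →ₐ[ℂ] ℂ, Semistable 𝒜 u p)
    {𝓛 : Sheaf 𝒜 Γ} (hc : 𝓛.IsChern H) (h : 𝓛.IsSemiample u) : IsNefForm H := by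
  obtain ⟨m, hm, h1⟩ := h
  obtain ⟨p, hp⟩ := hp
  obtain ⟨f, hf, h2⟩ := h1 0 p hp
  have h3 : f 0 ≠ 0 := fun h => h2 (by rw [h, map_zero])
  have h4 := Sheaf.nef_of_section hQ (Sheaf.chern_pow hc m) hf.sec ⟨0, h3⟩
  exact (Pool.Agent.R800.UB.nef_mul hm).1 h4

theorem nef_limit {H H' : V → V → ℂ} (h : ∀ m : ℕ, IsNefForm fun v w => (m : ℂ) * H v w + H' v w) :
    IsNefForm H := by
  intro v
  by_contra hneg
  push Not at hneg
  obtain ⟨m, hm⟩ := exists_nat_gt ((H' v v).re / (-(H v v).re))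
  have h1 := h m v
  have h2 : ((m : ℂ) * H v v + H' v v).re = m * (H v v).re + (H' v v).re := by
    rw [Complex.add_re, Pool.Agent.R800.UA.natCast_mul_re]
  change 0 ≤ ((m : ℂ) * H v v + H' v v).re at h1
  rw [h2] at h1
  rw [div_lt_iff₀ (by linarith)] at hm
  linarith

theorem of_isNef (hQ : IsQuotient 𝒜 u Γ) (hp : ∃ p : R →ₐ[ℂ] ℂ, Semistable 𝒜 u p)
    {𝓛 : Sheaf 𝒜 Γ} (hc : 𝓛.IsChern H) (h : IsNef 𝓛 u) : IsNefForm H ∧ NefF 𝒜 u 𝓛.deg := by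
  obtain ⟨𝓐, HA, hA, h1⟩ := isNef_iff.1 h
  refine ⟨nef_limit (H' := HA) fun m => ?_, 𝓐.deg, fun m => deg_of_semiample (h1 m)⟩
  exact form_of_semiample hQ hp (Sheaf.chern_tensor (Sheaf.chern_pow hc m) hA) (h1 m)

theorem isNef_of (hF : IsProjective 𝒜 u) (hQ : IsQuotient 𝒜 u Γ)
    (hproj : ∃ (L : Sheaf 𝒜 Γ) (H : V → V → ℂ), L.IsChern H ∧ IsPositiveForm H)
    {𝓛 : Sheaf 𝒜 Γ} (hc : 𝓛.IsChern H) (hn : IsNefForm H) (hd : NefF 𝒜 u 𝓛.deg) :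
    IsNef 𝓛 u := by
  obtain ⟨𝓛₀, H₀, hc₀, hp₀⟩ := hproj
  obtain ⟨α, hα⟩ := hd
  obtain ⟨m₀, hm₀⟩ := hF.ample (-α)
  have hu : Inv 𝒜 Γ (m₀ • u) := Inv.nsmul hQ.inv m₀
  have hb := hF.base
  have hcard := Pool.Agent.K4H22.NS.IsQuotient.gal_pos hQ
  have hexp : 0 < expo Γ := expo_pos hQ
  have hA := Sheaf.chern_tensor (Sheaf.ofLB_chern (𝒜 := 𝒜) (Sheaf.toLB_chern hQ hc₀))
    (ofDeg_chern (D := hb) (hQ := hQ) (hβ := hu))
  refine isNef_iff.2 ⟨_, _, hA, fun m => ?_⟩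
  have hcm := Sheaf.chern_tensor (Sheaf.chern_pow hc m) hA
  set 𝓜 : Sheaf 𝒜 Γ := (𝓛.pow m).tensor
    (Sheaf.tensor (Sheaf.ofLB (𝓛₀.toLB hQ)) (ofDeg hb hQ (m₀ • u) hu)) with hM
  have hpos : IsPositiveForm (fun v w => (expo Γ : ℂ) *
      ((m : ℂ) * H v w + ((expo Γ : ℂ) * H₀ v w + 0))) := by
    intro v hv
    change 0 < ((expo Γ : ℂ) * ((m : ℂ) * H v v + ((expo Γ : ℂ) * H₀ v v + 0))).re
    rw [Pool.Agent.R800.UA.natCast_mul_re, Complex.add_re, Pool.Agent.R800.UA.natCast_mul_re,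
      add_zero, Pool.Agent.R800.UA.natCast_mul_re]
    have h1 : (0 : ℝ) < expo Γ := by exact_mod_cast hexp
    have h2 : (0 : ℝ) ≤ m * (H v v).re := mul_nonneg (Nat.cast_nonneg _) (hn v)
    have h3 := hp₀ v hv
    positivity
  have hbf := ample_eff hQ.torus (Sheaf.toLB_chern hQ hcm) hpos
  have hj : 0 < 4 * Nat.card (Lin (base Γ)) ^ 5 := by
    have := finite_Lin hQ.torus
    have : 0 < Nat.card (Lin (base Γ)) := Nat.card_pos
    positivity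
  have hdeg : SemiampleF 𝒜 u 𝓜.deg := by
    have h1 : 𝓜.deg = m • 𝓛.deg + (0 + Nat.card (gal Γ) • (m₀ • u)) := rfl
    obtain ⟨c, hc⟩ : ∃ c, Nat.card (gal Γ) = c + 1 := ⟨Nat.card (gal Γ) - 1, by omega⟩
    have h2 : 𝓜.deg = ((m • 𝓛.deg + α) + (-α + m₀ • u)) + (c * m₀) • u := by
      rw [h1, hc, zero_add, smul_smul, add_mul, one_mul, add_smul]
      abel
    rw [h2]
    exact ((hα m).add hm₀).add (hF.semiample_u.nsmul _)
  obtain ⟨k, hk, hfree⟩ := hdeg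
  exact FreePow.isSemiample (Nat.mul_pos (Nat.mul_pos hexp hj) hk) (free_of hQ 𝓜 hbf hfree)

theorem free_uniform (hQ : IsQuotient 𝒜 u Γ) (h01 : HOneZero (base Γ)) {n : ℕ}
    (hd : Module.finrank ℂ V = n) {𝓛 : Sheaf 𝒜 Γ} (hc : 𝓛.IsChern H) (hn : IsNefForm H) {k : ℕ}
    (hk : FreeF 𝒜 u 𝓛.deg k) : FreePow 𝓛 u (expo Γ * (4 * gl3 n ^ 5) * k) := by
  refine free_of hQ 𝓛 (power_uni hQ.torus h01 hd (Sheaf.toLB_chern hQ hc) ?_) hk
  exact (Pool.Agent.R800.UB.nef_mul (expo_pos hQ)).2 hn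

theorem hone_of_all (hF : IsProjective 𝒜 u) (hQ : IsQuotient 𝒜 u Γ)
    (hproj : ∃ (L : Sheaf 𝒜 Γ) (H : V → V → ℂ), L.IsChern H ∧ IsPositiveForm H)
    (hall : ∀ (𝓛 : Sheaf 𝒜 Γ) (H : V → V → ℂ), 𝓛.IsChern H → IsNef 𝓛 u → 𝓛.IsSemiample u) :
    HOneZero (base Γ) := by
  by_contra h01
  obtain ⟨P, hP, hbad⟩ := exists_bad hQ.torus h01
  have hc : (Sheaf.ofLB P : Sheaf 𝒜 Γ).IsChern (fun _ _ => 0) := Sheaf.ofLB_chern hP
  have hnef : IsNef (Sheaf.ofLB P : Sheaf 𝒜 Γ) u := by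
    refine isNef_of hF hQ hproj hc (fun v => by simp) ?_
    exact nefF_of_semiample SemiampleF.zero
  obtain ⟨m, hm, h1⟩ := hall _ _ hc hnef
  obtain ⟨p, hp⟩ := hF.point
  obtain ⟨f, hf, h2⟩ := h1 0 p hp
  have hscal : ∀ w, ∃ c : ℂ, f w = algebraMap ℂ R c := by
    intro w
    apply hF.const
    have h3 := hf.mem w
    change f w ∈ 𝒜 (m • 0) at h3
    rwa [smul_zero] at h3
  have hsec : (P.pow m).IsSection (fun w => p (f w)) := by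
    refine ⟨hf.holo p.toLinearMap, fun b w => ?_⟩
    obtain ⟨γ, hγ⟩ := Sheaf.exists_lift b
    have h3 := hf.eq γ w
    change f (γ.1.1 w) = P.e ⟨γ.1.1, mem_base γ.2⟩ w ^ m • γ.1.2 (f w) at h3
    obtain ⟨c, hc⟩ := hscal w
    have h4 : (⟨γ.1.1, mem_base γ.2⟩ : base Γ) = b := Subtype.ext hγ
    rw [h4, hγ, hc, AlgEquiv.commutes, ← hc] at h3
    change p (f ((b : V ≃ᵃ[ℂ] V) w)) = P.e b w ^ m * p (f w)
    rw [h3, map_smul, smul_eq_mul]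
  have h5 := hbad m hm _ hsec
  exact h2 (congrFun h5 0)

theorem criterion (hF : IsProjective 𝒜 u) (hQ : IsQuotient 𝒜 u Γ)
    (hproj : ∃ (L : Sheaf 𝒜 Γ) (H : V → V → ℂ), L.IsChern H ∧ IsPositiveForm H) :
    (∀ (𝓛 : Sheaf 𝒜 Γ) (H : V → V → ℂ), 𝓛.IsChern H → IsNef 𝓛 u → 𝓛.IsSemiample u) ↔
      HOneZero (base Γ) ∧ ∀ β : Cl ρ, Inv 𝒜 Γ β → NefF 𝒜 u β → SemiampleF 𝒜 u β := by
  constructor
  · intro hall
    refine ⟨hone_of_all hF hQ hproj hall, fun β hβ hn => ?_⟩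
    have hc := ofDeg_chern (D := hF.base) (hQ := hQ) (hβ := hβ)
    have hnef : IsNef (ofDeg hF.base hQ β hβ) u :=
      isNef_of hF hQ hproj hc (fun v => by simp) (hn.nsmul _)
    exact semiample_of_nsmul (Pool.Agent.K4H22.NS.IsQuotient.gal_pos hQ)
      (deg_of_semiample (hall _ _ hc hnef))
  · rintro ⟨h01, hβ⟩ 𝓛 H hc hnef
    obtain ⟨hn, hd⟩ := of_isNef hQ hF.point hc hnef
    obtain ⟨k, hk, hfree⟩ := hβ _ 𝓛.inv hd
    have hg := gl3_pos (Module.finrank ℂ V)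
    exact FreePow.isSemiample (Nat.mul_pos (Nat.mul_pos (expo_pos hQ) (by positivity)) hk)
      (free_uniform hQ h01 rfl hc hn hfree)

/-- The form and the class of a multiple of a nef sheaf belong to a sheaf without base points. -/
theorem numerical_free (hF : IsProjective 𝒜 u) (hQ : IsQuotient 𝒜 u Γ) {n : ℕ}
    (hd : Module.finrank ℂ V = n) {𝓛 : Sheaf 𝒜 Γ} (hc : 𝓛.IsChern H) (hn : IsNefForm H) {k : ℕ}
    (hk : FreeF 𝒜 u 𝓛.deg k) :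
    ∃ 𝓜 : Sheaf 𝒜 Γ, 𝓜.IsChern (fun v w => ((expo Γ * (4 * gl3 n ^ 3) * k : ℕ) : ℂ) * H v w) ∧
      𝓜.deg = (expo Γ * (4 * gl3 n ^ 3) * k) • 𝓛.deg ∧ FreePow 𝓜 u 1 := by
  classical
  have hfin := hQ.fin_gal
  have : Fintype (gal Γ) := Fintype.ofFinite _
  obtain ⟨L', hL', hs⟩ := numerical_uni hQ.torus hd (Sheaf.toLB_chern hQ hc)
    ((Pool.Agent.R800.UB.nef_mul (expo_pos hQ)).2 hn)
  have hinv : Inv 𝒜 Γ (k • 𝓛.deg) := Inv.nsmul 𝓛.inv k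
  set N := Nat.card (Lin (base Γ)) * (4 * gl3 n ^ 3) with hN
  have hA := Sheaf.chern_tensor (Sheaf.chern_pow (Sheaf.ofLB_chern (𝒜 := 𝒜) hL') k)
    (Sheaf.chern_pow (ofDeg_chern (D := hF.base) (hQ := hQ) (hβ := hinv)) N)
  refine ⟨((Sheaf.ofLB L').pow k).tensor ((ofDeg hF.base hQ (k • 𝓛.deg) hinv).pow N),
    ?_, ?_, ?_⟩
  · have e1 : (fun v w => ((expo Γ * (4 * gl3 n ^ 3) * k : ℕ) : ℂ) * H v w)
        = fun v w => (k : ℂ) * (((4 * gl3 n ^ 3 : ℕ) : ℂ) * ((expo Γ : ℂ) * H v w))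
          + (N : ℂ) * 0 := by
      funext v w
      push_cast
      ring
    rw [e1]
    exact hA
  · change k • (0 : Cl ρ) + N • (Nat.card (gal Γ) • (k • 𝓛.deg)) = _
    rw [smul_zero, zero_add, smul_smul, smul_smul, hN, expo]
    congr 1
    ring
  · intro v p hp
    obtain ⟨s, hs1, hsv⟩ := hs v
    obtain ⟨r, hr, hr0⟩ := exists_nonvanish (K := gal Γ) (𝒜 := 𝒜) (β := k • 𝓛.deg) (p := p)
      (fun φ => hk _ (semistable_comp hQ hp φ.2))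
    have hsec := ofDeg_section (D := hF.base) (hQ := hQ) (hβ := hinv) hr
    refine ⟨fun w => s w ^ k • nrm (gal Γ) r ^ N, ?_, ?_⟩
    · apply Sheaf.pow_one_section
      refine ⟨fun w => ?_, fun ℓ => ?_, fun γ w => ?_⟩
      · have h1 := SetLike.pow_mem_graded N (hsec.mem 0)
        have h2 : (((Sheaf.ofLB L').pow k).tensor
            ((ofDeg hF.base hQ (k • 𝓛.deg) hinv).pow N)).deg
            = N • (ofDeg hF.base hQ (k • 𝓛.deg) hinv).deg := by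
          change k • (0 : Cl ρ) + N • _ = _
          rw [smul_zero, zero_add]
        rw [h2]
        exact (𝒜 _).smul_mem _ h1
      · have h1 : (fun w => ℓ (s w ^ k • nrm (gal Γ) r ^ N))
            = fun w => s w ^ k * ℓ (nrm (gal Γ) r ^ N) := by
          funext w
          rw [map_smul, smul_eq_mul]
        rw [h1]
        exact (hs1.holo.pow k).mul_const _
      · have h1 := hs1.eq ⟨γ.1.1, mem_base γ.2⟩ w
        change s (γ.1.1 w) = L'.e ⟨γ.1.1, mem_base γ.2⟩ w * s w at h1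
        change s (γ.1.1 w) ^ k • nrm (gal Γ) r ^ N
          = (L'.e ⟨γ.1.1, mem_base γ.2⟩ w ^ k * (1 : ℂ) ^ N) •
            γ.1.2 (s w ^ k • nrm (gal Γ) r ^ N)
        rw [h1, map_smul, map_pow, nrm_fix (mem_gal γ.2), smul_smul, mul_pow, one_pow, mul_one]
    · rw [map_smul, map_pow, smul_eq_mul]
      exact mul_ne_zero (pow_ne_zero _ hsv) (pow_ne_zero _ hr0)

end Pool.Agent.K4H22.NS
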